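import Mathlib
import Pool.Agent.V11242.CL.Luzin
import Pool.Agent.V11242.CL.Arith

/-!
# A `cov(M)`-Luzin set which is a union of fewer than `cov(M)` meager sets

Let `κ = ℶ_{ω₁}`. Adding `κ` many Cohen reals forces that `cov(M) = κ` is singular and that there
is a `κ`-Luzin set which is a union of `ℵ₁` many meager sets. The set `κ` is divided into `ℵ₁` many
blocks of size less than `κ`. With each block a Cohen real `m` is associated, and the members of the
Luzin set with index in this block are the Cohen elements of the closed nowhere dense set of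
all `x` with `x n ≠ m n` for all `n`.
-/

set_option autoImplicit false

namespace Pool.Agent.Results.MP_54b694_lc.SingularLuzin

open Cardinal Ordinal Pool.Agent.Helper669.Forcing Pool.Agent.H458R4.Cohen Pool.Agent.V11242.CL

/-- There are a ccc notion of forcing `P` and a singular cardinal `κ` such that all conditions
force that `cov(M) = κ`, that `κ` is singular, and that there is a `κ`-Luzin set which is a union
of fewer than `κ` many meager sets. -/
theorem result : ∃ (P : Type) (_ : Preorder P) (κ : Cardinal.{0}), Nonempty P ∧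
    (∀ A : Set P, (∀ p ∈ A, ∀ q ∈ A, p ≠ q → ¬ ∃ r, r ≤ p ∧ r ≤ q) → A.Countable) ∧
    κ.ord.cof = ℵ₁ ∧ ℵ₁ < κ ∧
    ∀ p : P, p ∈ CovIs P κ ∧ p ∈ SingularIs P κ ∧ p ∈ HasCoveredLuzinSet P κ := by
  have hcof : (ℶ_ ω₁ : Cardinal.{0}).ord.cof = ℵ₁ := cof_beth
  have hpow := pow_aleph0_eq isStrongLimit_beth' hcof
  have hlt : (ℵ₁ : Cardinal.{0}) < ℶ_ ω₁ := by
    have h1 : (ℵ₁ : Cardinal.{0}) ≤ ℶ_ ω₁ := by
      have := cof_ord_le (ℶ_ ω₁ : Cardinal.{0})
      rwa [hcof] at this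
    refine lt_of_le_of_ne h1 fun h => ?_
    have h2 := isStrongLimit_beth'.isStrongPrelimit (aleph0_lt_of_cof hcof)
    rw [← h] at h2
    exact absurd (Cardinal.aleph_one_le_continuum.trans_eq Cardinal.two_power_aleph0.symm)
      (not_le.2 h2)
  generalize (ℶ_ ω₁ : Cardinal.{0}) = κ at hcof hpow hlt
  obtain ⟨bl, hbl⟩ := exists_blocks hcof
  have hκ : ℵ₀ < κ := aleph0_lt_of_cof hcof
  have hK : ℵ₀ < #κ.out := by rw [mk_out]; exact hκ
  have hι : #((ℵ₁ : Cardinal.{0}).out ⊕ κ.out) = κ := by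
    rw [mk_sum]
    simp only [Cardinal.lift_id, mk_out]
    exact add_eq_right hκ.le hlt.le
  have hι' : ℵ₀ < #((ℵ₁ : Cardinal.{0}).out ⊕ κ.out) := by rw [hι]; exact hκ
  refine ⟨Fn ((ℵ₁ : Cardinal.{0}).out ⊕ κ.out), inferInstance, κ, inferInstance, ?_, hcof, hlt,
    fun p => ⟨⟨?_, ?_⟩, ?_, ?_⟩⟩
  · intro A hA
    refine ccc A fun p hp q hq h => ?_
    by_contra hne
    exact hA p hp q hq hne h
  · have h1 := covLe_of_continuumLe
      (continuumLe hι' (by rw [hι]; exact hpow) p)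
    obtain ⟨e⟩ : Nonempty (κ.out ≃ ((ℵ₁ : Cardinal.{0}).out ⊕ κ.out)) :=
      Cardinal.eq.1 (by rw [hι, mk_out])
    refine mem_fex.2 fun q hq => ?_
    obtain ⟨r, hr, T, hT1, hT2⟩ := mem_fex.1 h1 q hq
    refine ⟨r, hr, fun y => T (e y), fun y => hT1 (e y), fun x => ?_⟩
    refine mem_fimp.2 fun s hs hx => ?_
    obtain ⟨t, ht, h2⟩ := mem_fimp.1 (hT2 x) s hs hx
    refine ⟨t, ht, mem_fex.2 fun u hu => ?_⟩
    obtain ⟨v, hv, y, hy⟩ := mem_fex.1 h2 u hu
    exact ⟨v, hv, e.symm y, by simpa using hy⟩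
  · intro μ hμ
    exact not_covLe hι' (by rw [mk_out, hι]; exact hμ) p
  · refine mem_fex.2 fun q _ => ⟨q, le_rfl, ℵ₁, mem_fex.2 fun q1 _ => ⟨q1, le_rfl, hlt, ?_⟩⟩
    refine mem_fex.2 fun q2 _ => ⟨q2, le_rfl, fun x i => {_p | bl x = i}, ⟨fun x => ?_,
      fun x i i' => ?_⟩, fun i => ?_⟩
    · exact mem_fex.2 fun q3 _ => ⟨q3, le_rfl, bl x, meets_of_mem rfl⟩
    · refine mem_fimp.2 fun q3 _ h => ⟨q3, le_rfl, ?_⟩
      obtain ⟨r, _, s, hs, _⟩ := h.1 q3 le_rfl
      obtain ⟨r', _, s', hs', _⟩ := h.2 q3 le_rfl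
      exact (show bl x = i from hs).symm.trans hs'
    · intro q3 _ h
      have h1 := hbl {i} (Set.countable_singleton i)
      obtain ⟨x, hx, r, _, hr⟩ := exists_mem_outside hK h h1
      obtain ⟨r', _, s, hs, _⟩ := hr r le_rfl
      exact hx hs
  · refine mem_fex.2 fun q _ => ⟨q, le_rfl, Y bl, fun i => isFun_Y bl i q,
      fun i j hij => not_same bl hij q, fun T => ?_, ?_⟩
    · exact mem_fimp.2 fun r _ hT => ⟨r, le_rfl, not_fullSize bl hK hbl hT⟩
    · refine mem_fex.2 fun q1 _ => ⟨q1, le_rfl, ℵ₁, mem_fex.2 fun q2 _ => ⟨q2, le_rfl, hlt, ?_⟩⟩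
      refine mem_fex.2 fun q3 _ => ⟨q3, le_rfl, TT, fun j => isMeagerCode_TT j q3, fun i => ?_⟩
      exact mem_fex.2 fun q4 _ => ⟨q4, le_rfl, bl i, inMeager_TT bl i q4⟩

end Pool.Agent.Results.MP_54b694_lc.SingularLuzin
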